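import Mathlib
import Pool.Agent.H88.Fp4
import Pool.Agent.H88.FpDefs

open Pool.Agent.H88.Fp

theorem Pool.Agent.Results.MP_1a7c10_an.Yes.result (𝕜 : Type) [RCLike 𝕜] (p : ℝ) (hp : 0 < p)
    (hp1 : p < 1) (M X : Type) [MetricSpace M] (hM : Bornology.IsBounded (Set.univ : Set M))
    (o : M) [AddCommGroup X] [Module 𝕜 X] (ν : X → ℝ) (δ : M → X) (h : IsFree 𝕜 p o ν δ)
    (W : Set X) (hW : ∃ R, ∀ w ∈ W, ν w ≤ R) (hK : ¬Kalton 𝕜 ν δ W) :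
    ∃ x : ℕ → X, (∀ n, x n ∈ W) ∧ LpSeq 𝕜 p ν x := by
  letI := nacg h.banach hp
  exact kalton_nu h hp hp1.le (fun _ => rfl) hM hW hK
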